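import Pool.Agent.H20.MAD.Def

/-! MAD, row TOT: the total energy of the longer chains. -/

set_option autoImplicit false

namespace Pool.MAD

open Finset
open scoped Classical

namespace Tot8

theorem len_le {V : Type} (N : V → Finset V) (B : Finset V) :
    ∀ (T : ℕ) (u : V), ∀ w ∈ Wk N B T u, w.length ≤ T := by
  intro T
  induction T with
  | zero =>
    intro u w hw
    simp only [Wk, mem_singleton] at hw
    subst hw
    simp
  | succ T ih =>
    intro u w hw
    simp only [Wk, mem_biUnion, mem_image] at hw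
    obtain ⟨x, -, l, hl, rfl⟩ := hw
    split_ifs at hl with h
    · have := ih x l hl
      simp only [List.length_cons]
      omega
    · rw [mem_singleton] at hl
      subst hl
      simp

theorem mem_ch {V : Type} [Fintype V] (n : ℕ) (y : List V) :
    y ∈ ch V n ↔ y.length ≤ n ∧ y ≠ [] := by
  unfold ch
  rw [mem_filter, Set.Finite.mem_toFinset]
  rfl

end Tot8

open Tot8 in
theorem t_tot (hCNT : CNTStmt) : TOTStmt := by
  intro V _ N n A B T u P hA hTn hP
  obtain ⟨-, -, hc3, -, -, -, -⟩ := hCNT V
  rw [le_div_iff₀ hA]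
  let g : List V → ℝ := fun z => A ^ (z.length - 1) * cv (Wk N B T u) P z ^ 2
  have hg0 : ∀ z, 0 ≤ g z := fun z => by positivity
  have hlong : ∀ z : List V, n < z.length → g z = 0 := by
    intro z hz
    have h1 : cv (Wk N B T u) P z = 0 := by
      unfold cv
      refine sum_eq_zero fun w hw => ?_
      rw [hc3 z w (by have := len_le N B T u w hw; omega), mul_zero]
    show A ^ (z.length - 1) * cv (Wk N B T u) P z ^ 2 = 0
    rw [h1]
    simp
  have h1 : (∑ y ∈ ch V n, A ^ (y.length - 1) * ∑ x : V, cv (Wk N B T u) P (x :: y) ^ 2) * A =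
      ∑ z ∈ ch V n ×ˢ (univ : Finset V), g (z.2 :: z.1) := by
    rw [sum_product, sum_mul]
    refine sum_congr rfl fun y hy => ?_
    rw [mul_right_comm, mul_sum]
    refine sum_congr rfl fun x _ => ?_
    show _ = A ^ ((x :: y).length - 1) * cv (Wk N B T u) P (x :: y) ^ 2
    have h2 : (x :: y).length - 1 = (y.length - 1) + 1 := by
      have h3 : y.length ≠ 0 := by
        rw [Ne, List.length_eq_zero_iff]
        exact ((mem_ch n y).1 hy).2
      simp only [List.length_cons]
      omega
    rw [h2, pow_succ A]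
  rw [h1]
  have h2 : ∑ z ∈ ch V n ×ˢ (univ : Finset V), g (z.2 :: z.1) =
      ∑ z ∈ (ch V n ×ˢ (univ : Finset V)).filter (fun z => z.1.length + 1 ≤ n),
        g (z.2 :: z.1) := by
    symm
    refine sum_subset (filter_subset _ _) fun z hz hz' => ?_
    rw [mem_filter, not_and] at hz'
    have h3 := hz' hz
    exact hlong _ (by simp only [List.length_cons]; omega)
  rw [h2]
  have h3 : ∑ z ∈ (ch V n ×ˢ (univ : Finset V)).filter (fun z => z.1.length + 1 ≤ n),
        g (z.2 :: z.1) =
      ∑ z ∈ ((ch V n ×ˢ (univ : Finset V)).filter (fun z => z.1.length + 1 ≤ n)).image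
        (fun z : List V × V => z.2 :: z.1), g z := by
    rw [sum_image]
    rintro ⟨y, x⟩ _ ⟨y', x'⟩ _ h
    simp only [List.cons.injEq] at h
    rw [h.1, h.2]
  rw [h3]
  refine sum_le_sum_of_subset_of_nonneg ?_ fun z _ _ => hg0 z
  intro z hz
  rw [mem_image] at hz
  obtain ⟨⟨y, x⟩, hyx, rfl⟩ := hz
  rw [mem_filter] at hyx
  rw [mem_ch]
  refine ⟨by simp only [List.length_cons]; exact hyx.2, by simp⟩

end Pool.MAD
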